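import Pool.Agent.Helper67.DO.StmtsT

/-!
T5: separation of `DiffOmega`, compactness of the images of the levels.
-/

set_option autoImplicit false

namespace Pool.Agent.Helper67.DO

open scoped BigOperators Real Topology BoundedContinuousFunction

noncomputable section

/-- evaluation at a point of the circle is continuous -/
lemma t5_ev (h1 : ST_T1) (h4 : ST_T4) (x : UnitAddCircle) :
    Continuous (fun f : DiffOmega => (f : Equiv.Perm UnitAddCircle) x) := by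
  obtain ⟨t, rfl⟩ := QuotientAddGroup.mk_surjective x
  rw [continuous_def]
  intro V hV
  apply h4.2
  intro n hn Φ hΦ hU
  have hl := (h1.1 Φ hΦ.1).2 t
  have hmem : ((Φ t : ℝ) : UnitAddCircle) ∈ V := by
    rw [← hl]
    exact hU
  have hc : Continuous (fun s : ℝ => ((s : ℝ) : UnitAddCircle)) := AddCircle.continuous_mk' 1
  have hopen : IsOpen ((fun s : ℝ => ((s : ℝ) : UnitAddCircle)) ⁻¹' V) := hV.preimage hc
  obtain ⟨ε, hε, hball⟩ := Metric.isOpen_iff.1 hopen (Φ t) hmem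
  refine ⟨ε / 2, by positivity, fun Ψ hΨ hd => ?_⟩
  have hl' := (h1.1 Ψ hΨ.1).2 t
  have h5 : Ψ t ∈ Metric.ball (Φ t) ε := by
    rw [Metric.mem_ball, Real.dist_eq, abs_sub_comm]
    linarith [hd t]
  have h6 := hball h5
  show ((cls Ψ : Equiv.Perm UnitAddCircle) (t : UnitAddCircle)) ∈ V
  rw [hl']
  exact h6

lemma t5_t2 (h1 : ST_T1) (h4 : ST_T4) : T2Space DiffOmega := by
  let F : DiffOmega → (UnitAddCircle → UnitAddCircle) := fun f x => (f : Equiv.Perm UnitAddCircle) x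
  have hF : Continuous F := continuous_pi fun x => t5_ev h1 h4 x
  have hinj : Function.Injective F := by
    intro f g hfg
    apply Subtype.ext
    apply Equiv.ext
    intro x
    exact congrFun hfg x
  exact T2Space.of_injective_continuous hinj hF

/-- the compact set of normalised displacements -/
def t5_K (n : ℕ) : Set (ℝ →ᵇ ℝ) := {v | (fun x => x + v x) ∈ AA n ∧ 0 ≤ v 0 ∧ v 0 ≤ 1}

lemma t5_bcf (h2 : ST_D2) (n : ℕ) (hn : 1 ≤ n) (Φ : ℝ → ℝ) (hΦ : Φ ∈ AA n) :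
    ∃ v : ℝ →ᵇ ℝ, ∀ x, v x = Φ x - x := by
  obtain ⟨K, -, hK⟩ := h2.2.2.2.2.2.1 n hn
  have hc : Continuous (fun x => Φ x - x) := hΦ.1.cont.sub continuous_id
  refine ⟨BoundedContinuousFunction.ofNormedAddCommGroup (fun x => Φ x - x) hc (K + |Φ 0|) ?_, fun x => rfl⟩
  intro x
  rw [Real.norm_eq_abs]
  have := hK Φ hΦ x
  calc |Φ x - x| = |(Φ x - x - Φ 0) + Φ 0| := by congr 1; ring
    _ ≤ |Φ x - x - Φ 0| + |Φ 0| := abs_add_le _ _
    _ ≤ K + |Φ 0| := by linarith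

lemma t5_norm (h1 : ST_T1) (h2 : ST_D2) (n : ℕ) (hn : 1 ≤ n) (Φ : ℝ → ℝ) (hΦ : Φ ∈ AA n) :
    ∃ v ∈ t5_K n, cls (fun x => x + v x) = cls Φ := by
  let k : ℤ := -⌊Φ 0⌋
  have hΦ' : (fun x => Φ x + (k : ℝ)) ∈ AA n := (h2.2.2.2.2.1 n hn Φ hΦ k).1
  obtain ⟨v, hv⟩ := t5_bcf h2 n hn _ hΦ'
  have hfun : (fun x => x + v x) = fun x => Φ x + (k : ℝ) := by
    funext x
    rw [hv x]; ring
  refine ⟨v, ⟨?_, ?_, ?_⟩, ?_⟩
  · rw [hfun]; exact hΦ'
  · rw [hv 0]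
    have := Int.floor_le (Φ 0)
    simp only [k]; push_cast; linarith
  · rw [hv 0]
    have := Int.lt_floor_add_one (Φ 0)
    simp only [k]; push_cast; linarith
  · rw [hfun]
    exact h1.2.2.2.2.1 Φ k hΦ.1

lemma t5_Kcompact (h3 : ST_D3) (n : ℕ) (hn : 1 ≤ n) : IsCompact (t5_K n) := by
  apply IsSeqCompact.isCompact
  intro v hv
  obtain ⟨Φ, hΦ, φ, hφ, hlim⟩ := h3.2.2 n hn (fun k x => x + v k x)
    (fun k => ⟨(hv k).1, by simpa using (hv k).2.1, by simpa using (hv k).2.2⟩)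
  -- the limit as a bounded continuous function
  obtain ⟨k0, hk0⟩ := hlim 1 one_pos
  have hc : Continuous (fun x => Φ x - x) := hΦ.1.cont.sub continuous_id
  have hb : ∀ x, ‖Φ x - x‖ ≤ ‖v (φ k0)‖ + 1 := by
    intro x
    have e1 := hk0 k0 le_rfl x
    have e2 := (v (φ k0)).norm_coe_le_norm x
    rw [Real.norm_eq_abs] at e2 ⊢
    calc |Φ x - x| = |v (φ k0) x - (x + v (φ k0) x - Φ x)| := by congr 1; ring
      _ ≤ |v (φ k0) x| + |x + v (φ k0) x - Φ x| := abs_sub _ _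
      _ ≤ _ := by linarith
  let w : ℝ →ᵇ ℝ := BoundedContinuousFunction.ofNormedAddCommGroup (fun x => Φ x - x) hc _ hb
  have hw : ∀ x, w x = Φ x - x := fun x => rfl
  have hfun : (fun x => x + w x) = Φ := by
    funext x; rw [hw x]; ring
  have htend : Filter.Tendsto (fun k => v (φ k)) Filter.atTop (𝓝 w) := by
    rw [Metric.tendsto_atTop]
    intro ε hε
    obtain ⟨N, hN⟩ := hlim (ε / 2) (by positivity)
    refine ⟨N, fun k hk => ?_⟩
    have : dist (v (φ k)) w ≤ ε / 2 := by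
      rw [BoundedContinuousFunction.dist_le (by positivity)]
      intro x
      rw [Real.dist_eq, hw x]
      have := hN k hk x
      calc |v (φ k) x - (Φ x - x)| = |x + v (φ k) x - Φ x| := by congr 1; ring
        _ ≤ ε / 2 := this
    linarith
  have h0 : Filter.Tendsto (fun k => v (φ k) 0) Filter.atTop (𝓝 (w 0)) := by
    rw [Metric.tendsto_atTop] at htend ⊢
    intro ε hε
    obtain ⟨N, hN⟩ := htend ε hε
    exact ⟨N, fun k hk => lt_of_le_of_lt (BoundedContinuousFunction.dist_coe_le_dist _) (hN k hk)⟩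
  refine ⟨w, ⟨?_, ?_, ?_⟩, φ, hφ, htend⟩
  · rw [hfun]; exact hΦ
  · exact ge_of_tendsto' h0 (fun k => (hv (φ k)).2.1)
  · exact le_of_tendsto' h0 (fun k => (hv (φ k)).2.2)

/-- a lift is uniformly continuous -/
lemma t5_uc (Φ : ℝ → ℝ) (hΦ : IsLift Φ) (ε : ℝ) (hε : 0 < ε) :
    ∃ δ : ℝ, 0 < δ ∧ ∀ s t : ℝ, |s - t| ≤ δ → |Φ s - Φ t| ≤ ε := by
  have hcomp : IsCompact (Set.Icc (-1 : ℝ) 2) := isCompact_Icc
  have huc := hcomp.uniformContinuousOn_of_continuous hΦ.cont.continuousOn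
  rw [Metric.uniformContinuousOn_iff] at huc
  obtain ⟨δ, hδ, h⟩ := huc ε hε
  refine ⟨min (δ / 2) 1, lt_min (by positivity) one_pos, fun s t hst => ?_⟩
  have h1 : |s - t| ≤ δ / 2 := hst.trans (min_le_left _ _)
  have h2 : |s - t| ≤ 1 := hst.trans (min_le_right _ _)
  let k : ℤ := -⌊t⌋
  have ht0 : 0 ≤ t + k := by
    have := Int.floor_le t
    simp only [k]; push_cast; linarith
  have ht1 : t + k ≤ 1 := by
    have := Int.lt_floor_add_one t
    simp only [k]; push_cast; linarith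
  have habs := abs_le.1 h2
  have h3 := h (s + k) ⟨by linarith, by linarith⟩ (t + k) ⟨by linarith, by linarith⟩
    (by rw [Real.dist_eq]; rw [show s + k - (t + k) = s - t by ring]; linarith)
  rw [Real.dist_eq, hΦ.perInt k s, hΦ.perInt k t] at h3
  rw [show Φ s + k - (Φ t + k) = Φ s - Φ t by ring] at h3
  exact h3.le

lemma t5_one (h1 : ST_T1) : cls (fun x => x) = 1 := by
  have := h1.2.2.2.1 (fun x => x) (fun x => x) isLift_id isLift_id
  have h : cls (fun x => x) * cls (fun x => x) = cls (fun x => x) * 1 := by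
    rw [mul_one]
    exact this.symm
  exact mul_left_cancel h

lemma t5_quot (h1 : ST_T1) (Φ Ψ Θ : ℝ → ℝ) (hΦ : IsLift Φ) (hΨ : IsLift Ψ) (hΘ : IsLift Θ)
    (hi : ∀ x, Ψ (Θ x) = x) : cls Φ * (cls Ψ)⁻¹ = cls (fun x => Φ (Θ x)) := by
  rw [h1.2.2.2.1 Φ Θ hΦ hΘ]
  congr 1
  have h2 := h1.2.2.2.1 Ψ Θ hΨ hΘ
  have h3 : (fun x => Ψ (Θ x)) = fun x => x := funext hi
  rw [h3, t5_one h1] at h2
  exact inv_eq_of_mul_eq_one_right h2.symm

/-- level of quotients -/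
lemma t5_lev (h2 : ST_D2) (h3 : ST_D3) (n : ℕ) (hn : 1 ≤ n) : ∃ m : ℕ, n ≤ m ∧ 1 ≤ m ∧
    ∀ Φ ∈ AA n, ∀ Ψ ∈ AA n, ∃ Θ : ℝ → ℝ, IsLift Θ ∧ (∀ x, Ψ (Θ x) = x ∧ Θ (Ψ x) = x) ∧
      (fun x => Φ (Θ x)) ∈ AA m := by
  obtain ⟨k, hk, hinv⟩ := h3.2.1 n hn
  obtain ⟨l, hl, hcomp⟩ := h3.1 n k hn hk
  refine ⟨max n l, le_max_left _ _, hn.trans (le_max_left _ _), fun Φ hΦ Ψ hΨ => ?_⟩
  obtain ⟨Θ, hΘ, hi⟩ := hinv Ψ hΨ
  exact ⟨Θ, hΘ.1, hi, h2.1 l _ hl (le_max_right _ _) (hcomp Φ hΦ Θ hΘ)⟩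

lemma t5_cont2 (h1 : ST_T1) (h4 : ST_T4) (h2 : ST_D2) (h3 : ST_D3) (n : ℕ) (hn : 1 ≤ n) :
    ContinuousOn (fun q : (ℝ →ᵇ ℝ) × (ℝ →ᵇ ℝ) =>
      cls (fun x => x + q.1 x) * (cls (fun x => x + q.2 x))⁻¹) (t5_K n ×ˢ t5_K n) := by
  obtain ⟨m, -, hm1, hlev⟩ := t5_lev h2 h3 n hn
  rintro ⟨v, w⟩ ⟨hv, hw⟩
  rw [ContinuousWithinAt, Filter.tendsto_def]
  intro S hS
  obtain ⟨U, hUS, hUo, hmem⟩ := mem_nhds_iff.1 hS
  obtain ⟨Θ, hΘl, hΘi, hΘm⟩ := hlev _ hv.1 _ hw.1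
  have hq := t5_quot h1 (fun x => x + v x) (fun x => x + w x) Θ hv.1.1 hw.1.1 hΘl (fun x => (hΘi x).1)
  have hmem' : cls (fun x => (fun x => x + v x) (Θ x)) ∈ U := by
    rw [← hq]; exact hmem
  obtain ⟨δ, hδ, hU⟩ := h4.1 U hUo m hm1 _ hΘm hmem'
  obtain ⟨δ2, hδ2, huc1⟩ := t5_uc _ hv.1.1 (δ / 2) (by positivity)
  obtain ⟨δ3, hδ3, huc2⟩ := t5_uc _ hΘl δ2 hδ2
  rw [Metric.mem_nhdsWithin_iff]
  refine ⟨min (δ / 2) δ3, lt_min (by positivity) hδ3, ?_⟩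
  rintro ⟨v', w'⟩ ⟨hb, hv', hw'⟩
  apply hUS
  obtain ⟨Θ', hΘl', hΘi', hΘm'⟩ := hlev _ hv'.1 _ hw'.1
  have hq' := t5_quot h1 (fun x => x + v' x) (fun x => x + w' x) Θ' hv'.1.1 hw'.1.1 hΘl'
    (fun x => (hΘi' x).1)
  show cls (fun x => x + v' x) * (cls (fun x => x + w' x))⁻¹ ∈ U
  rw [hq']
  apply hU _ hΘm'
  intro x
  rw [Metric.mem_ball, Prod.dist_eq] at hb
  have hb1 : dist v' v < min (δ / 2) δ3 := lt_of_le_of_lt (le_max_left _ _) hb
  have hb2 : dist w' w < min (δ / 2) δ3 := lt_of_le_of_lt (le_max_right _ _) hb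
  -- displacement of the inverse
  have e1 : |Θ x - Θ' x| ≤ δ2 := by
    have hx : (fun x => x + w' x) (Θ' x) = x := (hΘi' x).1
    have hx2 : Θ ((fun x => x + w x) (Θ' x)) = Θ' x := (hΘi (Θ' x)).2
    have := huc2 x ((fun x => x + w x) (Θ' x)) (by
      have h5 : x - (fun x => x + w x) (Θ' x) = w' (Θ' x) - w (Θ' x) := by
        have : Θ' x + w' (Θ' x) = x := hx
        show x - (Θ' x + w (Θ' x)) = _
        linarith
      rw [h5, ← Real.dist_eq]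
      exact (BoundedContinuousFunction.dist_coe_le_dist _).trans (hb2.le.trans (min_le_right _ _)))
    rw [hx2] at this
    exact this
  have e2 := huc1 (Θ x) (Θ' x) e1
  have e3 : |v (Θ' x) - v' (Θ' x)| ≤ δ / 2 := by
    rw [abs_sub_comm, ← Real.dist_eq]
    exact (BoundedContinuousFunction.dist_coe_le_dist _).trans (hb1.le.trans (min_le_left _ _))
  show |(Θ x + v (Θ x)) - (Θ' x + v' (Θ' x))| ≤ δ
  calc |(Θ x + v (Θ x)) - (Θ' x + v' (Θ' x))|
      = |((Θ x + v (Θ x)) - (Θ' x + v (Θ' x))) + (v (Θ' x) - v' (Θ' x))| := by congr 1; ring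
    _ ≤ |(Θ x + v (Θ x)) - (Θ' x + v (Θ' x))| + |v (Θ' x) - v' (Θ' x)| := abs_add_le _ _
    _ ≤ δ / 2 + δ / 2 := add_le_add e2 e3
    _ = δ := by ring

lemma t5_cls_compact (h1 : ST_T1) (h4 : ST_T4) (h2 : ST_D2) (h3 : ST_D3) (n : ℕ) (hn : 1 ≤ n) :
    IsCompact (cls '' (AA n)) := by
  have hcont : ContinuousOn (fun v : ℝ →ᵇ ℝ => cls (fun x => x + v x)) (t5_K n) := by
    intro v hv
    rw [ContinuousWithinAt, Filter.tendsto_def]
    intro S hS
    obtain ⟨U, hUS, hUo, hmem⟩ := mem_nhds_iff.1 hS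
    obtain ⟨δ, hδ, hU⟩ := h4.1 U hUo n hn _ hv.1 hmem
    rw [Metric.mem_nhdsWithin_iff]
    refine ⟨δ, hδ, ?_⟩
    rintro v' ⟨hb, hv'⟩
    apply hUS
    apply hU _ hv'.1
    intro x
    rw [Metric.mem_ball] at hb
    show |(x + v x) - (x + v' x)| ≤ δ
    rw [show (x + v x) - (x + v' x) = -(v' x - v x) by ring, abs_neg, ← Real.dist_eq]
    exact (BoundedContinuousFunction.dist_coe_le_dist _).trans hb.le
  have himg : cls '' (AA n) = (fun v : ℝ →ᵇ ℝ => cls (fun x => x + v x)) '' (t5_K n) := by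
    ext g
    constructor
    · rintro ⟨Φ, hΦ, rfl⟩
      obtain ⟨v, hv, he⟩ := t5_norm h1 h2 n hn Φ hΦ
      exact ⟨v, hv, he⟩
    · rintro ⟨v, hv, rfl⟩
      exact ⟨_, hv.1, rfl⟩
  rw [himg]
  exact (t5_Kcompact h3 n hn).image_of_continuousOn hcont

lemma t5_EE_compact (h1 : ST_T1) (h4 : ST_T4) (h2 : ST_D2) (h3 : ST_D3) (n p : ℕ) (hn : 1 ≤ n) :
    IsCompact (EE n p) := by
  let G : (Fin (p + 1) → (ℝ →ᵇ ℝ)) → (Fin p → DiffOmega) := fun z i =>
    cls (fun x => x + z i.castSucc x) * (cls (fun x => x + z i.succ x))⁻¹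
  have hK : IsCompact (Set.univ.pi fun _ : Fin (p + 1) => t5_K n) :=
    isCompact_univ_pi fun _ => t5_Kcompact h3 n hn
  have hG : ContinuousOn G (Set.univ.pi fun _ : Fin (p + 1) => t5_K n) := by
    rw [continuousOn_pi]
    intro i
    have hc : ContinuousOn (fun z : Fin (p + 1) → (ℝ →ᵇ ℝ) => (z i.castSucc, z i.succ))
        (Set.univ.pi fun _ : Fin (p + 1) => t5_K n) :=
      ((continuous_apply _).prodMk (continuous_apply _)).continuousOn
    exact (t5_cont2 h1 h4 h2 h3 n hn).comp hc (fun z hz => ⟨hz _ (Set.mem_univ _), hz _ (Set.mem_univ _)⟩)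
  have himg : EE n p = G '' (Set.univ.pi fun _ : Fin (p + 1) => t5_K n) := by
    ext g
    constructor
    · rintro ⟨y, hy, rfl⟩
      choose v hv he using fun k => t5_norm h1 h2 n hn (y k) (hy k)
      refine ⟨fun k => v k, fun k _ => hv k, ?_⟩
      funext i
      show cls (fun x => x + v (i.castSucc : Fin (p + 1)) x) *
        (cls (fun x => x + v (i.succ : Fin (p + 1)) x))⁻¹ = cls (y i) * (cls (y ((i : ℕ) + 1)))⁻¹
      rw [he, he]
      rfl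
    · rintro ⟨z, hz, rfl⟩
      refine ⟨fun k => if h : k < p + 1 then (fun x => x + z ⟨k, h⟩ x) else fun x => x + 0, ?_, ?_⟩
      · intro k
        by_cases h : k < p + 1
        · simp only [h, dif_pos]
          exact (hz ⟨k, h⟩ (Set.mem_univ _)).1
        · simp only [h, dif_neg, not_false_eq_true]
          exact h2.2.2.2.1 n hn 0
      · funext i
        have ha : (i : ℕ) < p + 1 := by omega
        have hb : (i : ℕ) + 1 < p + 1 := by omega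
        simp only [prQ, ha, hb, dif_pos]
        rfl
  rw [himg]
  exact hK.image_of_continuousOn hG

lemma t5_chain (h2 : ST_D2) (h3 : ST_D3) (n : ℕ) (hn : 1 ≤ n) : ∀ p : ℕ, ∃ m : ℕ, n ≤ m ∧
    ∀ F : Sq, (∀ k, F k ∈ AA n) → ∃ y : Sq, (∀ k, y k ∈ AA m) ∧
      ∀ i < p, y i = fun x => F i (y (i + 1) x) := by
  intro p
  induction p with
  | zero =>
    refine ⟨n, le_rfl, fun F hF => ⟨F, hF, fun i hi => absurd hi (Nat.not_lt_zero i)⟩⟩
  | succ p ih =>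
    obtain ⟨m, hm, h⟩ := ih
    obtain ⟨k, hk, hcomp⟩ := h3.1 n m hn (hn.trans hm)
    refine ⟨max m k, hm.trans (le_max_left _ _), fun F hF => ?_⟩
    obtain ⟨y', hy', he⟩ := h (fun i => F (i + 1)) (fun i => hF (i + 1))
    refine ⟨fun i => match i with
      | 0 => fun x => F 0 (y' 0 x)
      | i + 1 => y' i, ?_, ?_⟩
    · intro i
      cases i with
      | zero => exact h2.1 k _ hk (le_max_right _ _) (hcomp (F 0) (hF 0) (y' 0) (hy' 0))
      | succ i => exact h2.1 m _ (hn.trans hm) (le_max_left _ _) (hy' i)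
    · intro i hi
      cases i with
      | zero => rfl
      | succ i => exact he i (by omega)

theorem st_T5 (h1 : ST_T1) (h4 : ST_T4) (h2 : ST_D2) (h3 : ST_D3) : ST_T5 := by
  refine ⟨t5_t2 h1 h4, fun n hn => t5_cls_compact h1 h4 h2 h3 n hn,
    fun n p hn => t5_EE_compact h1 h4 h2 h3 n p hn, ?_, ?_, ?_⟩
  · rintro n m p hn hnm g ⟨y, hy, rfl⟩
    exact ⟨y, fun k => h2.1 n m hn hnm (hy k), rfl⟩
  · intro n p hn
    obtain ⟨m, hm, h⟩ := t5_chain h2 h3 n hn p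
    refine ⟨m, hm, fun g hg => ?_⟩
    choose F hF hcls using hg
    obtain ⟨y, hy, he⟩ := h (fun k => if hk : k < p then F ⟨k, hk⟩ else fun x => x + 0) (by
      intro k
      by_cases hk : k < p
      · simp only [hk, dif_pos]
        exact hF ⟨k, hk⟩
      · simp only [hk, dif_neg, not_false_eq_true]
        exact h2.2.2.2.1 n hn 0)
    refine ⟨y, hy, ?_⟩
    funext i
    show g i = cls (y i) * (cls (y ((i : ℕ) + 1)))⁻¹
    have h5 := he i i.2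
    simp only [i.2, dif_pos] at h5
    rw [h5, h1.2.2.2.1 (F i) (y ((i : ℕ) + 1)) (hF i).1 (hy _).1, hcls i, mul_assoc, mul_inv_cancel, mul_one]
  · intro n p hn
    obtain ⟨m, hnm, hm1, hlev⟩ := t5_lev h2 h3 n hn
    refine ⟨m, hnm, ?_⟩
    rintro g ⟨y, hy, rfl⟩ i
    obtain ⟨Θ, hΘl, hΘi, hΘm⟩ := hlev (y i) (hy _) (y ((i : ℕ) + 1)) (hy _)
    refine ⟨_, hΘm, ?_⟩
    exact (t5_quot h1 (y i) (y ((i : ℕ) + 1)) Θ (hy _).1 (hy _).1 hΘl (fun x => (hΘi x).1)).symm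

end

end Pool.Agent.Helper67.DO
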